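import Pool.Agent.U787.SP.P

/-!
# Class numbers and regulators of real quadratic fields after inverting some primes

Let `S` be a finite set of odd prime numbers. For a prime number `p` let `K = ℚ(√p)`, `R` the
regulator, `G` the subgroup of the class group generated by the classes of the ideals with norm in `S`,
and `s` the number of the primes of `S` which split in `K`. The index of `G` is the class number of the
ring of the `S`-integers `𝓞 K [1 / ℓ : ℓ ∈ S]`. Reduced ideals show that `R |G|` is at least a
multiple of `(log p) ^ (s + 1)`. We show that for almost all `p` it is at least a multiple of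
`((log p) ^ (3/2) / (log log p) ^ (1/2)) ^ (s + 1)`, and so the class number of the ring of the
`S`-integers is at most `C √p log log p` divided by this number: every inverted prime which splits
gains `(log p) ^ (3/2)`.

* For integers `A ≥ 1` and `x ≥ C` with `C A ^ 2 log log x ≤ log x`, all but `x ^ (1 - 1 / (C A ^ 2))` of
  the primes `p` in `(x, 2 x]` satisfy `(A log x) ^ (s + 1) ≤ C R |G|`.
* For every `E` all but `x / (log x) ^ E` of the primes `p` in `(x, 2 x]` satisfy
  `Y ^ (s + 1) ≤ C R |G|` and `[Cl : G] Y ^ (s + 1) ≤ C √x log log x`,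
  `Y = (log x) ^ (3/2) / (log log x) ^ (1/2)`.

Proof. (1) The determinant method for the equation `x ^ 2 - d y ^ 2 = N`, where `N` is composed of the
primes of `S` and may be as large as `d ^ A`. In the starting library (`Pool.Agent.Q276.PL`) `N = 1`
and the determinants of the monomials `x τ ^ i`, `y τ ^ i` for radicands `d = d₀ + τ` of a short
interval are small since `x / y` is very close to `√d`; for large `N` it is not. New: the radicands are
taken from one class modulo `R = ∏ ℓ ^ (v_ℓ(N) / (4 c))`. By Hensel's lemma `x / y` is also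
`ℓ`-adically close to an analytic function of `d`, so the determinant is divisible by `N ^ (m - c)`
(for one prime this divisibility is `Pool.Agent.U916.GT.det_dvd` by helper916). With the Taylor
polynomials of `√(d₀ + τ)` we show that it is smaller than this (`Pool.Agent.U787.SP.det_abs`,
`vanish`), so it is zero, and the number of radicands is bounded as in the library with the square
sieve (`block`). (2) If the norm is a square, descent for prime radicands (after
`Pool.Agent.U916.GN.desc` by helper916) gives a norm which is not a square. (3) So the products of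
powers of one prime ideal above each split `ℓ` with norm at most `p ^ (A / 2)` are far from each other,
and the numbers of ideals with bounded norm in `G` and in the class group (starting library,
`Pool.Agent.H38R2.CG`) give an upper bound for the index of `G`. (4) `L(1, χ) ≤ C log log p` for almost
all `p` is from `Pool.Agent.U787.VS` (VeryShortIntervals).
-/

namespace Pool.Agent.Results.MP_321647_nt.InvertingPrimes

open NumberField

/-- The subgroup of the class group generated by the classes of the ideals with norm in `S`. Its index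
is the class number of the ring of the `S`-integers of `K`. -/
noncomputable def Gen (K : Type) [Field K] [NumberField K] (S : Finset ℕ) :
    Subgroup (ClassGroup (𝓞 K)) :=
  Subgroup.closure {c | ∃ I : nonZeroDivisors (Ideal (𝓞 K)),
    Ideal.absNorm (I : Ideal (𝓞 K)) ∈ S ∧ ClassGroup.mk0 I = c}

open scoped Classical in
/-- The number of the primes of `S` which split in `K`, that is, which are the norm of two different
ideals. -/
noncomputable def splitCount (K : Type) [Field K] [NumberField K] (S : Finset ℕ) : ℕ :=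
  (S.filter fun l => ∃ P P' : Ideal (𝓞 K), P ≠ P' ∧ Ideal.absNorm P = l ∧ Ideal.absNorm P' = l).card

/-- `Y ^ (s + 1) ≤ C R |G|` for `K = ℚ(√p)`, with the regulator `R` of `K`, the number `s` of the primes
of `S` which split in `K` and the subgroup `G` generated by the ideals with norm in `S`. -/
def RegGE (S : Finset ℕ) (C Y : ℝ) (p : ℕ) : Prop := ∀ (K : Type) [Field K] [NumberField K],
  Module.finrank ℚ K = 2 → (∃ t : K, t ^ 2 = (p : K)) →
  Y ^ (splitCount K S + 1) ≤ C * (Units.regulator K * (Nat.card (Gen K S) : ℝ))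

/-- `[Cl : G] Y ^ (s + 1) ≤ B` for `K = ℚ(√p)`. -/
def IndexLE (S : Finset ℕ) (B Y : ℝ) (p : ℕ) : Prop := ∀ (K : Type) [Field K] [NumberField K],
  Module.finrank ℚ K = 2 → (∃ t : K, t ^ 2 = (p : K)) →
  ((Gen K S).index : ℝ) * Y ^ (splitCount K S + 1) ≤ B

/-- `(log x) ^ (3/2) / (log log x) ^ (1/2)` -/
noncomputable def Yf (x : ℝ) : ℝ := Real.log x ^ ((3 : ℝ) / 2) / √(Real.log (Real.log x))

/-- Regulators and class numbers of the rings of `S`-integers of `ℚ(√p)` for almost all primes `p`. -/
theorem result (S : Finset ℕ) (hS : ∀ l ∈ S, l.Prime ∧ l ≠ 2) (E : ℝ) :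
    (∃ C : ℝ, 1 ≤ C ∧ ∀ x A : ℕ, C ≤ x → 1 ≤ A →
      C * (A : ℝ) ^ 2 * Real.log (Real.log x) ≤ Real.log x →
      ({p : ℕ | p.Prime ∧ x < p ∧ p ≤ 2 * x ∧ ¬ RegGE S C (A * Real.log x) p}.ncard : ℝ) ≤
        x / (x : ℝ) ^ (1 / (C * (A : ℝ) ^ 2))) ∧
    (∃ C : ℝ, 1 ≤ C ∧ ∀ x : ℕ, C ≤ x →
      ({p : ℕ | p.Prime ∧ x < p ∧ p ≤ 2 * x ∧
        ¬ (RegGE S C (Yf x) p ∧ IndexLE S (C * √x * Real.log (Real.log x)) (Yf x) p)}.ncard : ℝ) ≤
        x / Real.log x ^ E) := by
  have hS1 : ∀ l ∈ S, l.Prime := fun l hl => (hS l hl).1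
  have hS2 : 2 ∉ S := fun h => (hS 2 h).2 rfl
  refine ⟨Pool.Agent.U787.SP.partOne S hS1 hS2, ?_⟩
  obtain ⟨C, hC, h⟩ := Pool.Agent.U787.SP.partTwo S hS1 hS2 E
  refine ⟨C, hC, fun x hx => ?_⟩
  refine le_trans ?_ (h x hx)
  have hfin : {p : ℕ | p.Prime ∧ x < p ∧ p ≤ 2 * x ∧ ¬ Pool.Agent.U787.SP.Good S C x p}.Finite := by
    refine (Set.finite_Icc 0 (2 * x)).subset ?_
    rintro p ⟨_, _, h, _⟩
    exact ⟨Nat.zero_le _, h⟩
  have hsub : {p : ℕ | p.Prime ∧ x < p ∧ p ≤ 2 * x ∧
      ¬ (RegGE S C (Yf x) p ∧ IndexLE S (C * √x * Real.log (Real.log x)) (Yf x) p)} ⊆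
      {p : ℕ | p.Prime ∧ x < p ∧ p ≤ 2 * x ∧ ¬ Pool.Agent.U787.SP.Good S C x p} := by
    rintro p ⟨h1, h2, h3, h4⟩
    exact ⟨h1, h2, h3, fun hg => h4 ⟨fun K _ _ hK ht => (hg K hK ht).1,
      fun K _ _ hK ht => (hg K hK ht).2⟩⟩
  exact_mod_cast Set.ncard_le_ncard hsub hfin

end Pool.Agent.Results.MP_321647_nt.InvertingPrimes
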