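import Pool.Agent.U689.CN.L6

/-!
# Class numbers of almost all real quadratic fields are small

For every `δ` between `0` and `1/2`, all but `O(N exp(-(log N)^(δ/16)))` of the squarefree `d ≤ N`
have class number `h(ℚ(√d)) ≤ √d / (log d)^(3/2 - δ)`.  The exceptional set is so small that this
holds for 100% of the members of every set of squarefree numbers with at least `N / (log N)^A`
members up to `N`; it is stated for the primes.  (By genus theory unique factorisation forces `d` to
be a prime, twice a prime or a product of two primes, so thin sets are the ones of interest.)  The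
trivial bound for almost all `d` is `√d / log d`, up to a power of `log log d`.

Proof. By the class number formula `h = √D L(1,χ) / (2 log ε)`.  The regulator `log ε` is at least
`(log N)^(3/2 - δ/2)` with few exceptions: this is the theorem behind
`MP_070445_nt.LargeUnits` (`Pool.Agent.Q276.PL`, determinant method).  New here: `L(1,χ_D)` is at most
`(log N)^(δ/2)` with equally few exceptions, by the second moment of the sum of `χ_D(n)/n` over
`y < n ≤ N^(3/5)`, `y = exp((log N)^(δ/4))`, over all `D ≤ N`, where the pairs with square product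
contribute `O(N / √y)` and the others little by Pólya-Vinogradov; and the deduction of the class
number formula and of the shape of the regulator.  The ideal count by `L(1,χ)` and the coordinates of
the ring of integers are from `Pool.Agent.H38R2.CG`.
-/

set_option autoImplicit false

namespace Pool.Agent.Results.MP_321647_nt.SmallClassNumbers

open Filter

/-- The class number of the real quadratic field `ℚ(√d)` is at most `√d / (log d)^(3/2 - δ)`. -/
def Small (δ : ℝ) (d : ℕ) : Prop := ∀ (K : Type) [Field K] [NumberField K],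
  Module.finrank ℚ K = 2 → (∃ x : K, x ^ 2 = (d : K)) →
  (NumberField.classNumber K : ℝ) ≤ √(d : ℝ) / Real.log d ^ (3 / 2 - δ)

/-- Let `0 < δ < 1/2`. All but `O(N exp(-(log N)^(δ/16)))` of the squarefree `d` with `2 ≤ d ≤ N`
have `h(ℚ(√d)) ≤ √d / (log d)^(3/2 - δ)`; in particular this holds for 100% of the primes. -/
theorem result (δ : ℝ) (hδ : 0 < δ) (hδ2 : δ < 1 / 2) :
    (∃ M : ℝ, ∀ N : ℕ, 2 ≤ N →
      ({d : ℕ | 2 ≤ d ∧ d ≤ N ∧ Squarefree d ∧ ¬ Small δ d}.ncard : ℝ) ≤
        M * N * Real.exp (-(Real.log N ^ (δ / 16)))) ∧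
    Tendsto (fun N : ℕ => ({p : ℕ | p ≤ N ∧ p.Prime ∧ ¬ Small δ p}.ncard : ℝ) /
      ({p : ℕ | p ≤ N ∧ p.Prime}.ncard : ℝ)) atTop (nhds 0) := by
  classical
  constructor
  · obtain ⟨M, -, hM⟩ := Pool.Agent.U689.CN.exc δ hδ hδ2
    refine ⟨M, fun N hN => ?_⟩
    refine le_trans (le_of_eq ?_) (hM N hN)
    rw [← Set.ncard_coe_finset]
    congr 2
    ext d
    simp only [Set.mem_ofPred_eq, Finset.coe_filter, Finset.mem_Icc]
    exact ⟨fun ⟨h1, h2, h3, h4⟩ => ⟨⟨h1, h2⟩, h3, h4⟩, fun ⟨⟨h1, h2⟩, h3, h4⟩ => ⟨h1, h2, h3, h4⟩⟩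
  · refine (Pool.Agent.U689.CN.primes_tend δ hδ hδ2).congr (fun N => ?_)
    rw [← Set.ncard_coe_finset, ← Set.ncard_coe_finset]
    congr 3
    · ext p
      simp only [Set.mem_ofPred_eq, Finset.coe_filter, Finset.mem_Icc]
      exact ⟨fun ⟨⟨_, h2⟩, h3, h4⟩ => ⟨h2, h3, h4⟩,
        fun ⟨h2, h3, h4⟩ => ⟨⟨h3.two_le, h2⟩, h3, h4⟩⟩
    · ext p
      simp only [Set.mem_ofPred_eq, Finset.coe_filter, Finset.mem_Icc]
      exact ⟨fun ⟨⟨_, h2⟩, h3⟩ => ⟨h2, h3⟩, fun ⟨h2, h3⟩ => ⟨⟨h3.two_le, h2⟩, h3⟩⟩

end Pool.Agent.Results.MP_321647_nt.SmallClassNumbers
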