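import Pool.Agent.U880.TC.End

set_option autoImplicit false

/-!
# Real quadratic fields: what arbitrary small sets of tiny prime ideals know about the class group

Unique factorisation means that all prime ideals are principal. What follows if this is known only for
a small part of the prime ideals of norm at most `y = (log d) ^ a`? For a squarefree `d` let
`K = ℚ(√d)` with class number `h`, and let `S` be ANY set of at least `(log d) ^ (a - κ)` prime ideals of
degree one and norm at most `(log d) ^ a`. So `S` may be a very small proportion `(log d) ^ (- κ)` of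
them, and it may depend on `d`. Let `E = (κ + 1) / (2 a) + ε` and let `d ≥ d₀` be ANY squarefree number,
or let `E = κ / (a - 1 + κ) + ε` (`a > 1`, `κ ≥ 1 - a / 2`) and let `d` be any squarefree number except
`O(X ^ (1 - δ))` of those up to `X`, in particular 100% of the prime numbers. Then

* at least `h / d ^ E` ideal classes are products of exactly `k` classes of ideals of `S`, for some
  `k ≤ log d / log log d`;
* if the classes of the ideals of `S` lie in one coset `g H` of a subgroup `H` of the class group, then
  the index of `H` is at most `d ^ E`; in particular, if they are in one ideal class then `h ≤ d ^ E`;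
* if the ideals of `S` are principal then `h ≤ d ^ E`.

So for almost all `d` the first conditions for unique factorisation need not be known for all the tiny
primes: if a proportion `(log d) ^ (- κ)` of them satisfies the condition then the class number is at
most `d ^ (κ / (a - 1 + κ) + ε)`, and at most `d ^ ε` if `a ≥ 2` and the proportion is
`(log d) ^ (- o(1))`. (For `κ > a - 1` the bounds are trivial.)

Proof: let `Q` be the set of the primes below the ideals of `S`. By a counting argument in the group of
the ideals modulo totally positive principal ideals, together with the archimedean place (starting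
library, `Pool.Agent.H38R2.CG3.ineq_classes`), `h` times the square of the number `N` of the products of
`k` ideals of `S` over different primes of `Q` is at most `2 √D L(1, χ_D)` times the number of their
classes times the number of pairs of these products which are close to each other. If the products are
less than `√D / 2` no two of them are close. New here are longer products: the close pairs which are not
equal are separated from the diagonal and counted for ALL products of `k` odd primes up to `y`, for
almost all `D` and for all `k` at once (the average over `D` uses the bounds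
`Pool.Agent.H38R2.CG.T_TB1a`, `T_TB3a` of the starting library), and only the diagonal is restricted to
the products from `Q`; so `Q` may depend on `d`. The length `k` is chosen so that the two terms
`√D / N` and `(M / N) ^ 2` are equal, where `M` is the number of all products of `k` odd primes up to `y`.
-/

namespace Pool.Agent.Results.MP_321647_nt.TinyPrimesInCosets

open Finset NumberField
open scoped Classical

/-- The prime ideals of degree one (the norm is a prime number) and of norm at most `B`. -/
def DegreeOne (K : Type) [Field K] [NumberField K] (B : ℝ) : Set (nonZeroDivisors (Ideal (𝓞 K))) :=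
  {P | (P : Ideal (𝓞 K)).IsPrime ∧ (Ideal.absNorm (P : Ideal (𝓞 K))).Prime ∧
    ((Ideal.absNorm (P : Ideal (𝓞 K)) : ℕ) : ℝ) ≤ B}

/-- The ideal classes which are products of the classes of `k` ideals of `S` (with repetitions). -/
def Products {K : Type} [Field K] [NumberField K] (S : Set (nonZeroDivisors (Ideal (𝓞 K)))) (k : ℕ) :
    Set (ClassGroup (𝓞 K)) :=
  {C | ∃ L : Multiset (nonZeroDivisors (Ideal (𝓞 K))), (∀ P ∈ L, P ∈ S) ∧ L.card = k ∧
    (L.map fun P => ClassGroup.mk0 P).prod = C}

/-- At least `h / M` classes are products of exactly `k` classes of ideals of `S`, for some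
`k ≤ log d / log log d`; here `h` is the class number. -/
def ManyProducts (K : Type) [Field K] [NumberField K] (S : Set (nonZeroDivisors (Ideal (𝓞 K))))
    (d : ℕ) (M : ℝ) : Prop :=
  ∃ k : ℕ, (k : ℝ) ≤ Real.log d / Real.log (Real.log d) ∧
    (classNumber K : ℝ) ≤ M * (Products S k).ncard

/-- If the classes of the ideals of `S` lie in a coset `g H` then the index of `H` is at most `M`. -/
def SmallIndex (K : Type) [Field K] [NumberField K] (S : Set (nonZeroDivisors (Ideal (𝓞 K))))
    (M : ℝ) : Prop :=
  ∀ (H : Subgroup (ClassGroup (𝓞 K))) (g : ClassGroup (𝓞 K)),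
    (∀ P ∈ S, ClassGroup.mk0 P * g⁻¹ ∈ H) → (H.index : ℝ) ≤ M

/-- If the ideals of `S` are principal then the class number is at most `M`. -/
def SmallClassNumber (K : Type) [Field K] [NumberField K]
    (S : Set (nonZeroDivisors (Ideal (𝓞 K)))) (M : ℝ) : Prop :=
  (∀ P ∈ S, (P : Ideal (𝓞 K)).IsPrincipal) → (classNumber K : ℝ) ≤ M

/-- For `K = ℚ(√d)` every set `S` of at least `(log d) ^ (a - κ)` prime ideals of degree one and norm
at most `(log d) ^ a` has the three properties `ManyProducts`, `SmallIndex`, `SmallClassNumber` with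
`M = d ^ E`. -/
def Bound (a κ E : ℝ) (d : ℕ) : Prop :=
  ∀ (K : Type) [Field K] [NumberField K], Module.finrank ℚ K = 2 → (∃ x : K, x ^ 2 = (d : K)) →
    ∀ S : Set (nonZeroDivisors (Ideal (𝓞 K))), S ⊆ DegreeOne K ((Real.log d) ^ a) →
    (Real.log d) ^ (a - κ) ≤ S.ncard →
    ManyProducts K S d ((d : ℝ) ^ E) ∧ SmallIndex K S ((d : ℝ) ^ E) ∧
      SmallClassNumber K S ((d : ℝ) ^ E)

theorem bound_of {a κ E : ℝ} {d : ℕ} (h : Pool.Agent.U880.TC.RB a κ E d) : Bound a κ E d := by
  intro K _ _ h2 hx S hS hn
  have hi := fun (H : Subgroup (ClassGroup (𝓞 K))) (g : ClassGroup (𝓞 K))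
    (hg : ∀ P ∈ S, ClassGroup.mk0 P * g⁻¹ ∈ H) => h.index K h2 hx H g S hS hg hn
  refine ⟨?_, hi, fun hp => ?_⟩
  · obtain ⟨k, hk1, hk2⟩ := h K h2 hx S hS hn
    refine ⟨k, hk1, ?_⟩
    rw [Nat.card_eq_fintype_card] at hk2
    exact hk2
  · have h1 := hi ⊥ 1 (by
      intro P hP
      rw [inv_one, mul_one, Subgroup.mem_bot, ClassGroup.mk0_eq_one_iff]
      exact hp P hP)
    rw [Subgroup.index_bot, Nat.card_eq_fintype_card] at h1
    exact h1

/-- Let `a > 1` and `ε > 0`. (1) Every squarefree `d ≥ d₀` satisfies
`Bound a κ ((κ + 1) / (2 a) + ε) d` for all `0 ≤ κ ≤ a - 1`. (2) All but `C X ^ (1 - δ)` of the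
squarefree `d ≤ X` satisfy `Bound a κ (κ / (a - 1 + κ) + ε) d` for all `0 ≤ κ ≤ a - 1` with
`a / 2 + κ ≥ 1` (the last condition is void if `a ≥ 2`). -/
theorem result (a ε : ℝ) (ha : 1 < a) (hε : 0 < ε) :
    (∃ d₀ : ℕ, ∀ d ≥ d₀, Squarefree d → ∀ κ : ℝ, 0 ≤ κ → κ ≤ a - 1 →
      Bound a κ ((κ + 1) / (2 * a) + ε) d) ∧
    ∃ δ C : ℝ, 0 < δ ∧ 0 < C ∧ ∀ X : ℕ,
      (((Finset.Icc 2 X).filter (fun d => Squarefree d ∧
        ¬ ∀ κ : ℝ, 0 ≤ κ → κ ≤ a - 1 → 1 ≤ a / 2 + κ →
          Bound a κ (κ / (a - 1 + κ) + ε) d)).card : ℝ) ≤ C * (X : ℝ) ^ (1 - δ) := by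
  constructor
  · obtain ⟨d₀, h⟩ := Pool.Agent.U880.TC.all_d a ha ε hε
    exact ⟨d₀, fun d hd hsq κ hκ0 hκ => bound_of (h d hd hsq κ hκ0 hκ)⟩
  · obtain ⟨δ, C, hδ, hC, h⟩ := Pool.Agent.U880.TC.almost a ha ε hε
    refine ⟨δ, C, hδ, hC, fun X => le_trans ?_ (h X)⟩
    have hsub : (Finset.Icc 2 X).filter (fun d => Squarefree d ∧
        ¬ ∀ κ : ℝ, 0 ≤ κ → κ ≤ a - 1 → 1 ≤ a / 2 + κ →
          Bound a κ (κ / (a - 1 + κ) + ε) d) ⊆
        (Finset.Icc 2 X).filter (fun d => Squarefree d ∧ ¬ Pool.Agent.U880.TC.GoodT a ε d) := by
      intro d hd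
      rw [Finset.mem_filter] at hd ⊢
      exact ⟨hd.1, hd.2.1, fun hg => hd.2.2 fun κ hκ0 hκ hκa => bound_of (hg κ hκ0 hκ hκa)⟩
    exact_mod_cast Finset.card_le_card hsub

end Pool.Agent.Results.MP_321647_nt.TinyPrimesInCosets
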