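import Pool.Agent.U787.VS.G

/-!
# Class numbers of almost all real quadratic fields in very short intervals of radicands

We prove that almost all members of a very short interval `(x, x + H]` have a small class number
`h(ℚ(√d))`. The interval may be as short as `H = exp (C (log log x) ^ 2)`, and the exceptions are
counted inside the interval. There is one free parameter `u`: all but `C H exp (-u)` of the squarefree
`d` with `x < d ≤ x + H` have `h(ℚ(√d)) ≤ C √d u ^ 2 / (√(log x) log H)`, for
`C log log x ≤ u ≤ √(log H / C)`. For example `u = (log x) ^ (δ/2) / √C` and `H ≥ exp ((log x) ^ δ)`.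
For `H ≥ x ^ w` and `u` a multiple of `log log x` the bound is
`C √d (log log d) ^ 2 / (log d) ^ (3/2)`, with `O (H / (log x) ^ A)` exceptions.

Proof. (1) Regulators. The determinant method of the starting library (`Pool.Agent.Q276.PL`, interval
of length `D ^ (1/(8m))`) gives, for the `d` of a very short interval with a small unit, one integer `M`
with few prime factors such that all but few of these `d` have a large common divisor with `M`. There
the interval `[1, X]` and the bound for the number of `d ≤ X` with many prime factors were used. New:
the common divisor is large and has no large prime factor, so `d` has a smooth divisor of controlled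
size, and the number of such `d` in the interval is bounded with Rankin's trick. So the regulator is at
least `c (log x) ^ (3/2) / u` with `H exp (-u)` exceptions.
(2) `L(1,χ)`. The sums `∑ χ(n)/n` over `n > H` cannot be controlled in a short interval. We show
`L(1,χ) ≤ C (1 + L(s,χ))` for `s = 1 + 1 / log x` (positivity of `1 * χ`), use the Euler product, treat
the primes `> √H` trivially, which costs `log x / log H`, the primes `≤ exp u` by Mertens, and the
others by a second moment over the interval.
(3) The class number formula and the regulator as logarithm of a unit are from `Pool.Agent.U689.CN`.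
-/

set_option autoImplicit false

namespace Pool.Agent.Results.MP_321647_nt.VeryShortIntervals

open NumberField

/-- The class number of the real quadratic field `ℚ(√d)` is at most `B`. -/
def ClassLE (B : ℝ) (d : ℕ) : Prop := ∀ (K : Type) [Field K] [NumberField K],
  Module.finrank ℚ K = 2 → (∃ t : K, t ^ 2 = (d : K)) → (classNumber K : ℝ) ≤ B

/-- Class numbers in very short intervals. -/
theorem result :
    (∃ C : ℝ, 1 ≤ C ∧ ∀ (x H : ℕ) (u : ℝ), C ≤ x → H ≤ x →
      C * Real.log (Real.log x) ≤ u → C * u ^ 2 ≤ Real.log H →
      ({d : ℕ | x < d ∧ d ≤ x + H ∧ Squarefree d ∧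
        ¬ ClassLE (C * √(d : ℝ) * u ^ 2 / (√(Real.log x) * Real.log H)) d}.ncard : ℝ) ≤
        C * H * Real.exp (-u)) ∧
    ∀ w A : ℝ, 0 < w → ∃ C : ℝ, ∀ x H : ℕ, C ≤ x → (x : ℝ) ^ w ≤ H → H ≤ x →
      ({d : ℕ | x < d ∧ d ≤ x + H ∧ Squarefree d ∧
        ¬ ClassLE (C * √(d : ℝ) * Real.log (Real.log d) ^ 2 / Real.log d ^ (3 / 2 : ℝ)) d}.ncard : ℝ) ≤
        C * H / Real.log x ^ A :=
  ⟨Pool.Agent.U787.VS.main, Pool.Agent.U787.VS.powers⟩

end Pool.Agent.Results.MP_321647_nt.VeryShortIntervals
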